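import Mathlib
import Pool.Agent.TH539.AlgProgUpper

set_option autoImplicit false

/-!
# MP_4b405e_nt: the arithmetic Kakeya problem for semialgebraic sets

Among the bounded semialgebraic subsets of `ℝ^n` that contain a `k`-term progression with every
common difference in `[0,1]^n`, the least upper Minkowski dimension is exactly `n - ⌊n/k⌋`; in
particular it is `n` as soon as `k ≥ n + 1`.  The lower bound needs only a Zariski dense set of common
differences.  The algebraic form, for arbitrary layers `a + t r ∈ V t` over an arbitrary field of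
characteristic zero, is also exact.

Proof of the lower bound: a generic point of the family of progressions (a Nullstellensatz argument)
gives `a` over a field extension `K` of `F(r_1, …, r_n)`.  The derivations `∂/∂r_i` extend to `K`, and
the matrix `D = (∂a_m/∂r_i)` satisfies `rank (D + t I) ≤ dim V_t`, so `-t` is an eigenvalue of `D` of
multiplicity at least `n - dim V_t`.
-/

open Filter Topology

namespace Pool.Agent.Results.MP_4b405e_nt.AlgebraicSets

/-- The least number of sets of diameter at most `δ` covering `B` (for bounded `B`). -/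
noncomputable def coverNum {n : ℕ} (B : Set (EuclideanSpace ℝ (Fin n))) (δ : ℝ) : ℕ :=
  sInf {N | ∃ U : Fin N → Set (EuclideanSpace ℝ (Fin n)),
    (∀ i, ∀ x ∈ U i, ∀ y ∈ U i, dist x y ≤ δ) ∧ B ⊆ ⋃ i, U i}

/-- Upper Minkowski dimension (upper box-counting dimension). -/
noncomputable def upperMinkowski {n : ℕ} (B : Set (EuclideanSpace ℝ (Fin n))) : EReal :=
  limsup (fun δ : ℝ => ((Real.log (coverNum B δ) / Real.log (1 / δ) : ℝ) : EReal)) (𝓝[>] 0)

/-- `B` contains a `k`-term progression with every common difference in `[0,1]^n`. -/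
def HasProgressions {n : ℕ} (k : ℕ) (B : Set (EuclideanSpace ℝ (Fin n))) : Prop :=
  ∀ r : EuclideanSpace ℝ (Fin n), (∀ i, r i ∈ Set.Icc (0 : ℝ) 1) →
    ∃ a : EuclideanSpace ℝ (Fin n), ∀ j : ℕ, j < k → a + (j : ℝ) • r ∈ B

/-- `B` is semialgebraic: membership of `x` in `B` depends only on the signs of finitely many
polynomials at `x`. -/
def Semialgebraic {n : ℕ} (B : Set (EuclideanSpace ℝ (Fin n))) : Prop :=
  ∃ Q : Finset (MvPolynomial (Fin n) ℝ), ∀ x y : EuclideanSpace ℝ (Fin n),
    (∀ q ∈ Q, SignType.sign (MvPolynomial.eval (fun i => x i) q) =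
      SignType.sign (MvPolynomial.eval (fun i => y i) q)) → x ∈ B → y ∈ B

/-- `R` is Zariski dense in affine `n`-space over `F`. -/
def ZariskiDense {F : Type} [Field F] {n : ℕ} (R : Set (Fin n → F)) : Prop :=
  ∀ p : MvPolynomial (Fin n) F, (∀ r ∈ R, MvPolynomial.eval r p = 0) → p = 0

/-- The Zariski closure of `V` has dimension at most `d`: any `d + 1` of the coordinates satisfy on
`V` a nontrivial polynomial relation. -/
def AlgDimLE {F : Type} [Field F] {n : ℕ} (d : ℕ) (V : Set (Fin n → F)) : Prop :=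
  ∀ s : Finset (Fin n), s.card = d + 1 →
    ∃ p : MvPolynomial (Fin n) F, p ≠ 0 ∧ p.vars ⊆ s ∧ ∀ x ∈ V, MvPolynomial.eval x p = 0

theorem result :
    -- the sharp threshold for bounded semialgebraic sets
    (∀ n k : ℕ, 1 ≤ k →
      IsLeast {D : EReal | ∃ B : Set (EuclideanSpace ℝ (Fin n)), Bornology.IsBounded B ∧
        Semialgebraic B ∧ HasProgressions k B ∧ upperMinkowski B = D}
        (((n - n / k : ℕ) : ℝ) : EReal)) ∧
    -- covering numbers of semialgebraic sets, for a Zariski dense set of differences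
    (∀ n k : ℕ, 1 ≤ k → ∀ B : Set (EuclideanSpace ℝ (Fin n)), Semialgebraic B →
      ∀ R : Set (Fin n → ℝ), ZariskiDense R →
      (∀ r ∈ R, ∃ a : Fin n → ℝ, ∀ j : ℕ, j < k →
        (WithLp.toLp 2 (a + (j : ℝ) • r) : EuclideanSpace ℝ (Fin n)) ∈ B) →
      ∃ κ : ℝ, 0 < κ ∧ ∀ δ : ℝ, 0 < δ → ∀ (N : ℕ) (U : Fin N → Set (EuclideanSpace ℝ (Fin n))),
        (∀ i, ∀ x ∈ U i, ∀ y ∈ U i, dist x y ≤ δ) → B ⊆ ⋃ i, U i →
        κ * δ ^ (-((n - n / k : ℕ) : ℝ)) ≤ N) ∧
    -- the algebraic form over any field of characteristic zero, for arbitrary layers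
    (∀ (F : Type) [Field F] [CharZero F] (n : ℕ) (T : Finset F) (d : F → ℕ), (∀ t ∈ T, d t ≤ n) →
      ((∃ (V : F → Set (Fin n → F)) (R : Set (Fin n → F)), ZariskiDense R ∧
        (∀ t ∈ T, AlgDimLE (d t) (V t)) ∧
        ∀ r ∈ R, ∃ a : Fin n → F, ∀ t ∈ T, a + t • r ∈ V t) ↔
      ∑ t ∈ T, (n - d t) ≤ n)) := by
  refine ⟨fun n k hk => ?_, fun n k hk B hB R hR h => ?_, fun F _ _ n T d hd => ?_⟩
  · exact Pool.Agent.TH539.AlgProg.least hk
  · refine Pool.Agent.TH539.AlgProg.lower_cover (k := k) hk hB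
      (R := (fun r => (WithLp.toLp 2 r : EuclideanSpace ℝ (Fin n))) '' R) ?_ ?_
    · intro p hp
      exact hR p (fun r hr => hp _ ⟨r, hr, rfl⟩)
    · rintro _ ⟨r, hr, rfl⟩
      obtain ⟨a, ha⟩ := h r hr
      exact ⟨WithLp.toLp 2 a, fun j hj => ha j hj⟩
  · exact Pool.Agent.TH539.AlgProg.layers T d hd

end Pool.Agent.Results.MP_4b405e_nt.AlgebraicSets
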