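import Pool.Agent.W46.KK.Final
import Pool.Agent.TH404.AK.Sdc3

/-!
# MP_4b405e_nt: progressions with every common difference, exponent `n / 1.669587`
-/

set_option autoImplicit false

open Filter Topology

namespace Pool.Agent.Results.MP_4b405e_nt.ArithmeticExponent

/-- The least number of sets of diameter at most `δ` covering `B` (for bounded `B`). -/
noncomputable def coverNum {n : ℕ} (B : Set (EuclideanSpace ℝ (Fin n))) (δ : ℝ) : ℕ :=
  sInf {N | ∃ U : Fin N → Set (EuclideanSpace ℝ (Fin n)),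
    (∀ i, ∀ x ∈ U i, ∀ y ∈ U i, dist x y ≤ δ) ∧ B ⊆ ⋃ i, U i}

/-- Upper Minkowski dimension (upper box-counting dimension). -/
noncomputable def upperMinkowski {n : ℕ} (B : Set (EuclideanSpace ℝ (Fin n))) : EReal :=
  limsup (fun δ : ℝ => ((Real.log (coverNum B δ) / Real.log (1 / δ) : ℝ) : EReal)) (𝓝[>] 0)

/-- `B` contains a `k`-term progression with every common difference in `[0,1]^n`. -/
def HasProgressions {n : ℕ} (k : ℕ) (B : Set (EuclideanSpace ℝ (Fin n))) : Prop :=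
  ∀ r : EuclideanSpace ℝ (Fin n), (∀ i, r i ∈ Set.Icc (0 : ℝ) 1) →
    ∃ a : EuclideanSpace ℝ (Fin n), ∀ j : ℕ, j < k → a + (j : ℝ) • r ∈ B

/-- `f^M_n(k)`: the infimum of the Minkowski dimensions of the bounded sets in `ℝ^n` that contain a
`k`-term progression with every common difference in `[0,1]^n`. -/
noncomputable def fM (n k : ℕ) : EReal :=
  ⨅ (B : Set (EuclideanSpace ℝ (Fin n))) (_ : Bornology.IsBounded B) (_ : HasProgressions k B),
    upperMinkowski B

/-- There is a `k₀` (depending on `n`) such that `f^M_n(k) ≥ n / 1.669587` for all `k ≥ k₀`; moreover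
every set (bounded or not) that contains a `k₀`-term progression with every common difference
needs at least `κ δ ^ (-n / 1.669587)` sets of diameter at most `δ` to cover it, for every `δ > 0`. -/
theorem result (n : ℕ) : ∃ k₀ : ℕ, ∃ κ : ℝ, 0 < κ ∧
    (∀ k : ℕ, k₀ ≤ k → (((n : ℝ) / 1.669587 : ℝ) : EReal) ≤ fM n k) ∧
    ∀ B : Set (EuclideanSpace ℝ (Fin n)), HasProgressions k₀ B → ∀ δ : ℝ, 0 < δ →
      ∀ (N : ℕ) (U : Fin N → Set (EuclideanSpace ℝ (Fin n))),
        (∀ i, ∀ x ∈ U i, ∀ y ∈ U i, dist x y ≤ δ) → B ⊆ ⋃ i, U i →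
        κ * δ ^ (-((n : ℝ) / 1.669587)) ≤ (N : ℝ) := by
  have hsd : Pool.Agent.W46.KK.SD (1669587 / 1000000) := by
    obtain ⟨S, h⟩ := Pool.Agent.TH404.AK.sdc3
    exact ⟨S, h⟩
  have e : (1.669587 : ℝ) = 1669587 / 1000000 := by norm_num
  rw [e]
  obtain ⟨k₁, h₁⟩ := Pool.Agent.W46.KK.prog_dim hsd (by norm_num) n
  obtain ⟨k₂, κ, hκ, h₂⟩ := Pool.Agent.W46.KK.prog hsd (by norm_num) n
  refine ⟨max k₁ k₂, κ, hκ, fun k hk => h₁ k (le_trans (le_max_left _ _) hk), ?_⟩
  intro B hB δ hδ N U hU hcov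
  have h := h₂ B (fun r hr => by
    obtain ⟨a, ha⟩ := hB r hr
    exact ⟨a, fun j hj => ha j (lt_of_lt_of_le hj (le_max_right _ _))⟩) δ hδ (Fin N) U hU hcov
  rwa [Fintype.card_fin] at h

end Pool.Agent.Results.MP_4b405e_nt.ArithmeticExponent
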